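import Pool.Agent.H28.MCB.Targets
import Pool.Agent.H23.MCL.ERS

/-!
Board mlb_modules, row ERI: the error for a family of intervals.
-/

set_option autoImplicit false

open Finset Filter

namespace Pool.Agent.H74.MCB.ERI

open Pool.Agent.H28.MCL Pool.Agent.H28.MCB

theorem sum_shift_le (b : ℕ → ℝ) (hb : ∀ n, 0 ≤ b n) (N T : ℕ) (hTN : T ≤ N) :
    ∑ n ∈ Finset.Ioc 0 N, ∑ s ∈ Finset.Icc 1 T, b (n + s) ≤
      T * ∑ y ∈ Finset.Icc 1 (2 * N), b y := by
  rw [Finset.sum_comm]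
  have h1 : ∀ s ∈ Finset.Icc 1 T, ∑ n ∈ Finset.Ioc 0 N, b (n + s) ≤
      ∑ y ∈ Finset.Icc 1 (2 * N), b y := by
    intro s hs
    have hs' := Finset.mem_Icc.1 hs
    have hm := Finset.sum_map (Finset.Ioc 0 N) (addRightEmbedding s) b
    simp only [addRightEmbedding_apply] at hm
    rw [← hm]
    refine Finset.sum_le_sum_of_subset_of_nonneg ?_ fun n _ _ => hb n
    intro y hy
    obtain ⟨n, hn, rfl⟩ := Finset.mem_map.1 hy
    have hn' := Finset.mem_Ioc.1 hn
    simp only [addRightEmbedding_apply, Finset.mem_Icc]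
    omega
  refine (Finset.sum_le_sum h1).trans (le_of_eq ?_)
  rw [Finset.sum_const, Nat.card_Icc, Nat.add_sub_cancel, nsmul_eq_mul]

theorem eri : T_ERI := by
  classical
  intro m q n₀ τ F G ε N T I hm hq hF hG hT hTN hI hE
  set e : Fin m → ℕ → ℝ := fun l z =>
    ind (fun y => y ≡ n₀ + τ l [MOD q] ∧ F l y ≠ G l y) z with he
  have he0 : ∀ l z, 0 ≤ e l z := by
    intro l z
    rw [he]
    unfold ind
    dsimp only
    split_ifs
    · exact zero_le_one
    · exact le_refl _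
  have hm0 : (0 : ℝ) < m := by exact_mod_cast hm
  have hT0 : (0 : ℝ) < T := by exact_mod_cast hT
  have hee : ∀ z, ∑ l, e l z = m * ee q n₀ τ F G z := by
    intro z
    unfold ee
    rw [← mul_assoc, mul_one_div_cancel hm0.ne', one_mul]
  have hee0 : ∀ z, 0 ≤ ee q n₀ τ F G z := by
    intro z
    unfold ee
    exact mul_nonneg (by positivity) (Finset.sum_nonneg fun l _ => he0 l z)
  have hnn : ∀ (t : Fin m → ℕ) (n : ℕ), 0 ≤ 2 * ∑ l, e l (n + t l) := fun t n =>
    mul_nonneg zero_le_two (Finset.sum_nonneg fun l _ => he0 l _)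
  have h2 : ∀ J ∈ I, ∑ t ∈ bx m T q τ, ∑ n ∈ iv J.2 (J.2 - J.1) q n₀,
      |∏ l, F l (n + t l) - ∏ l, G l (n + t l)| ≤
      ∑ t ∈ Fintype.piFinset (fun _ : Fin m => Finset.Icc 1 T), ∑ n ∈ Finset.Ioc J.1 J.2,
        2 * ∑ l, e l (n + t l) := by
    intro J hJ
    have hJ1 := (hI.1 J hJ).1
    have hJ2 : J.2 - (J.2 - J.1) = J.1 := by omega
    have h3 : ∑ t ∈ bx m T q τ, ∑ n ∈ iv J.2 (J.2 - J.1) q n₀,
        |∏ l, F l (n + t l) - ∏ l, G l (n + t l)| ≤
        ∑ t ∈ bx m T q τ, ∑ n ∈ Finset.Ioc J.1 J.2, 2 * ∑ l, e l (n + t l) := by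
      refine Finset.sum_le_sum fun t ht => ?_
      have h4 : ∑ n ∈ iv J.2 (J.2 - J.1) q n₀, |∏ l, F l (n + t l) - ∏ l, G l (n + t l)| ≤
          ∑ n ∈ iv J.2 (J.2 - J.1) q n₀, 2 * ∑ l, e l (n + t l) := by
        refine Finset.sum_le_sum fun n hn => ?_
        refine (Pool.Agent.H23.MCL.abs_prod_sub_prod Finset.univ _ _ (fun l => hF l _)
          (fun l => hG l _)).trans ?_
        rw [Finset.mul_sum]
        refine Finset.sum_le_sum fun l _ => ?_
        by_cases hFG : F l (n + t l) = G l (n + t l)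
        · rw [hFG, sub_self, abs_zero]
          exact mul_nonneg zero_le_two (he0 l _)
        · have h5 : n + t l ≡ n₀ + τ l [MOD q] :=
            Nat.ModEq.add (Finset.mem_filter.1 hn).2 ((Finset.mem_filter.1 ht).2 l)
          have h6 : e l (n + t l) = 1 := by
            rw [he]
            unfold ind
            dsimp only
            rw [if_pos ⟨h5, hFG⟩]
          rw [h6, mul_one]
          have h7 := abs_sub (F l (n + t l)) (G l (n + t l))
          linarith [hF l (n + t l), hG l (n + t l)]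
      refine h4.trans (Finset.sum_le_sum_of_subset_of_nonneg ?_ fun n _ _ => hnn t n)
      have h40 := Finset.filter_subset (fun n => n ≡ n₀ [MOD q])
        (Finset.Ioc (J.2 - (J.2 - J.1)) J.2)
      rw [hJ2] at h40
      unfold iv
      rw [hJ2]
      exact h40
    refine h3.trans (Finset.sum_le_sum_of_subset_of_nonneg (Finset.filter_subset _ _)
      fun t _ _ => Finset.sum_nonneg fun n _ => hnn t n)
  have h20 : ∑ J ∈ I, ∑ t ∈ bx m T q τ, ∑ n ∈ iv J.2 (J.2 - J.1) q n₀,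
      |∏ l, F l (n + t l) - ∏ l, G l (n + t l)| ≤
      ∑ t ∈ Fintype.piFinset (fun _ : Fin m => Finset.Icc 1 T), ∑ n ∈ Finset.Ioc 0 N,
        2 * ∑ l, e l (n + t l) := by
    refine (Finset.sum_le_sum h2).trans ?_
    rw [Finset.sum_comm]
    refine Finset.sum_le_sum fun t _ => ?_
    rw [← Finset.sum_biUnion hI.2]
    refine Finset.sum_le_sum_of_subset_of_nonneg ?_ fun n _ _ => hnn t n
    intro y hy
    obtain ⟨J, hJ, hy⟩ := Finset.mem_biUnion.1 hy
    have hy' := Finset.mem_Ioc.1 hy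
    have hJN := (hI.1 J hJ).2
    rw [Finset.mem_Ioc]
    omega
  refine h20.trans ?_
  have h8 : ∑ t ∈ Fintype.piFinset (fun _ : Fin m => Finset.Icc 1 T),
      ∑ n ∈ Finset.Ioc 0 N, 2 * ∑ l, e l (n + t l) =
      2 * m * (T : ℝ) ^ m * (1 / (T : ℝ) * ∑ n ∈ Finset.Ioc 0 N,
        ∑ s ∈ Finset.Icc 1 T, ee q n₀ τ F G (n + s)) := by
    rw [Finset.sum_comm, Finset.mul_sum, Finset.mul_sum]
    refine Finset.sum_congr rfl fun n _ => ?_
    rw [← Finset.mul_sum, Finset.sum_comm]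
    have h9 : ∀ l : Fin m, ∑ t ∈ Fintype.piFinset (fun _ : Fin m => Finset.Icc 1 T),
        e l (n + t l) = (T : ℝ) ^ (m - 1) * ∑ s ∈ Finset.Icc 1 T, e l (n + s) := by
      intro l
      have h10 := Fintype.sum_piFinset_apply (fun s => e l (n + s)) (Finset.Icc 1 T) l
      rw [h10, nsmul_eq_mul, Nat.card_Icc, Nat.add_sub_cancel, Fintype.card_fin]
      push_cast
      rfl
    rw [Finset.sum_congr rfl fun l _ => h9 l, ← Finset.mul_sum, Finset.sum_comm,
      Finset.sum_congr rfl fun s _ => hee (n + s), ← Finset.mul_sum]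
    have h11 : (T : ℝ) ^ m = (T : ℝ) ^ (m - 1) * T := by
      rw [← pow_succ, Nat.sub_add_cancel hm]
    rw [h11]
    field_simp
  rw [h8]
  have h12 : (0 : ℝ) ≤ 2 * m * (T : ℝ) ^ m := by positivity
  have h13 : 1 / (T : ℝ) * ∑ n ∈ Finset.Ioc 0 N,
        ∑ s ∈ Finset.Icc 1 T, ee q n₀ τ F G (n + s) ≤ 2 * ε * N := by
    have h14 := (sum_shift_le (ee q n₀ τ F G) hee0 N T hTN).trans
      (mul_le_mul_of_nonneg_left hE hT0.le)
    calc 1 / (T : ℝ) * ∑ n ∈ Finset.Ioc 0 N, ∑ s ∈ Finset.Icc 1 T, ee q n₀ τ F G (n + s)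
        ≤ 1 / (T : ℝ) * (T * (2 * ε * N)) := mul_le_mul_of_nonneg_left h14 (by positivity)
      _ = 2 * ε * N := by field_simp
  refine (mul_le_mul_of_nonneg_left h13 h12).trans (le_of_eq ?_)
  ring

end Pool.Agent.H74.MCB.ERI
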